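import Pool.Agent.H37.CA.Targets2
import Pool.Agent.H49.CA.CFX

/-!
# The number of the ray class characters whose inverse is a conjugate
-/

set_option autoImplicit false

open NumberField Complex Filter Topology

namespace Pool.Agent.H50.CA

open Pool.Agent.H37.CA Pool.Agent.H37.CV Pool.Agent.H28.RC Pool.Agent.H25 Pool.Agent.H25.HK
open Pool.Agent.H49.CA

variable {F : Type} [Field F] [NumberField F]

/-- the homomorphism `x ↦ σ x * x` -/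
noncomputable def dY (q : ℕ) (σ : F ≃ₐ[ℚ] F) : (𝓞 F ⧸ qi F q)ˣ →* (𝓞 F ⧸ qi F q)ˣ :=
  sX q σ * MonoidHom.id _

theorem dY_apply (q : ℕ) (σ : F ≃ₐ[ℚ] F) (x : (𝓞 F ⧸ qi F q)ˣ) : dY q σ x = sX q σ x * x := rfl

/-- these characters come from the quotient -/
theorem exists_quotY (q : ℕ) (hq : q.Prime) (σ : F ≃ₐ[ℚ] F) {ψ : Ideal (𝓞 F) → ℂ}
    (hψ : ψ ∈ Ch (qi F q) (qi F q))
    (hσ : ∀ I : Ideal (𝓞 F), I ≠ ⊥ → I ⊔ qi F q = ⊤ → ψ (cj σ I) * ψ I = 1) :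
    ∃ θ : ((𝓞 F ⧸ qi F q)ˣ ⧸ (dY q σ).range) →* ℂˣ,
      ∀ x : (𝓞 F ⧸ qi F q)ˣ, ((θ (QuotientGroup.mk x) : ℂˣ) : ℂ) =
        ψ (Ideal.span {lf (qi F q) x}) := by
  have hm := qi_ne_top (F := F) q hq
  let χ : (𝓞 F ⧸ qi F q)ˣ →* ℂˣ := (hC hm hψ).toHomUnits
  have hχ : ∀ x, ((χ x : ℂˣ) : ℂ) = ψ (Ideal.span {lf (qi F q) x}) := fun x => rfl
  have hker : (dY q σ).range ≤ χ.ker := by
    rintro _ ⟨x, rfl⟩
    rw [MonoidHom.mem_ker, dY_apply, map_mul]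
    refine Units.ext ?_
    have hc := cop_lf (qi F q) x
    rw [Units.val_mul, hχ, hχ, ← val_eq hm hψ (sX q σ x) (sR σ (lf (qi F q) x))
      (sX_val q σ x).symm, ← cj_span, Units.val_one]
    refine hσ _ ?_ hc
    rw [Ne, Ideal.span_singleton_eq_bot]
    exact ne_zero_of_cop hm hc
  refine ⟨QuotientGroup.lift (dY q σ).range χ hker, fun x => ?_⟩
  rw [QuotientGroup.lift_mk, hχ]

/-- the size of the kernel -/
theorem card_kerY_le (q : ℕ) (hq : q.Prime) (σ : F ≃ₐ[ℚ] F) :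
    Nat.card (dY q σ).ker ≤ {y : 𝓞 F ⧸ qi F q | ∃ x : 𝓞 F, Ideal.Quotient.mk (qi F q) x = y ∧
      (σ • x) * x - 1 ∈ qi F q}.ncard := by
  have : Finite (𝓞 F ⧸ qi F q) := Ideal.finiteQuotientOfFreeOfNeBot _ (qi_ne_bot q hq)
  have h1 : Nat.card (dY q σ).ker =
      ((fun x : (𝓞 F ⧸ qi F q)ˣ => (x : 𝓞 F ⧸ qi F q)) '' ((dY q σ).ker : Set _)).ncard := by
    rw [Set.ncard_image_of_injective _ Units.val_injective]
    rfl
  rw [h1]
  refine Set.ncard_le_ncard ?_ (Set.toFinite _)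
  rintro _ ⟨x, hx, rfl⟩
  refine ⟨lf (qi F q) x, mk_lf _ x, ?_⟩
  have h2 : dY q σ x = 1 := hx
  rw [dY_apply] at h2
  have h3 : ((sX q σ x * x : (𝓞 F ⧸ qi F q)ˣ) : 𝓞 F ⧸ qi F q) = 1 := by rw [h2, Units.val_one]
  rw [Units.val_mul, sX_val, ← mk_lf (qi F q) x, ← map_mul, ← map_one (Ideal.Quotient.mk _),
    Ideal.Quotient.eq] at h3
  exact h3

theorem pf_CFY (hFXY : T_FXY) : T_CFY := by
  classical
  intro F _ _ _ _
  set n := Fintype.card (ClassGroup (𝓞 F)) with hn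
  obtain ⟨q₀, hq₀⟩ := hFXY F
  refine ⟨((n ^ n : ℕ) : ℝ) * 2 ^ Module.finrank ℚ F, q₀, fun q hq hdq σ => ?_⟩
  set A := {ψ | ψ ∈ Ch (qi F q) (qi F q) ∧ ∀ I : Ideal (𝓞 F), I ≠ ⊥ → I ⊔ qi F q = ⊤ →
      ψ (cj σ I) * ψ I = 1} with hA
  have hm := qi_ne_top (F := F) q hq
  have hq0 : (0 : ℝ) < q := by exact_mod_cast hq.pos
  by_cases hfin : A.Finite
  swap
  · rw [Set.Infinite.ncard hfin, Nat.cast_zero]
    positivity
  have : Finite (𝓞 F ⧸ qi F q) := Ideal.finiteQuotientOfFreeOfNeBot _ (qi_ne_bot q hq)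
  have hS := hq₀ q hq hdq σ
  set S := {y : 𝓞 F ⧸ qi F q | ∃ x : 𝓞 F, Ideal.Quotient.mk (qi F q) x = y ∧
      (σ • x) * x - 1 ∈ qi F q} with hSdef
  let f : (Ideal (𝓞 F) → ℂ) → ((𝓞 F ⧸ qi F q)ˣ → ℂ) := fun ψ x =>
    ψ (Ideal.span {lf (qi F q) x})
  have h1 : hfin.toFinset.card ≤ n ^ n * (hfin.toFinset.image f).card := by
    refine Finset.card_le_mul_card_image _ _ fun g _ => ?_
    refine fib_card (qi F q) hm _ (fun ψ hψ => ?_) g (fun ψ hψ x => ?_)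
    · exact (hfin.mem_toFinset.1 (Finset.mem_filter.1 hψ).1).1
    · exact congrFun (Finset.mem_filter.1 hψ).2 x
  obtain ⟨hfinQ, hcardQ⟩ := card_dual_quot (𝓞 F ⧸ qi F q)ˣ (dY q σ).range
  have h2 : (hfin.toFinset.image f).card ≤ Nat.card (dY q σ).ker := by
    have h3 : ((hfin.toFinset.image f : Finset _) : Set ((𝓞 F ⧸ qi F q)ˣ → ℂ)) ⊆
        Set.range (fun (θ : ((𝓞 F ⧸ qi F q)ˣ ⧸ (dY q σ).range) →* ℂˣ) (x : (𝓞 F ⧸ qi F q)ˣ) =>
          ((θ (QuotientGroup.mk x) : ℂˣ) : ℂ)) := by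
      intro g hg
      obtain ⟨ψ, hψ, rfl⟩ := Finset.mem_image.1 (Finset.mem_coe.1 hg)
      obtain ⟨h4, h5⟩ := hfin.mem_toFinset.1 hψ
      obtain ⟨θ, hθ⟩ := exists_quotY q hq σ h4 h5
      exact ⟨θ, funext hθ⟩
    rw [← Set.ncard_coe_finset]
    refine (Set.ncard_le_ncard h3 (Set.finite_range _)).trans ?_
    rw [← Set.image_univ]
    refine (Set.ncard_image_le (Set.finite_univ)).trans ?_
    rw [Set.ncard_univ, hcardQ, index_range_eq]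
  have h3 := card_kerY_le q hq σ
  have h4 : (S.ncard : ℝ) ≤
      2 ^ Module.finrank ℚ F * (q : ℝ) ^ ((Module.finrank ℚ F : ℝ) / 2) := by
    have h5 : (S.ncard : ℝ) ^ 2 ≤
        (2 ^ Module.finrank ℚ F * (q : ℝ) ^ ((Module.finrank ℚ F : ℝ) / 2)) ^ 2 := by
      rw [mul_pow, ← Real.rpow_natCast ((q : ℝ) ^ ((Module.finrank ℚ F : ℝ) / 2)) 2,
        ← Real.rpow_mul hq0.le]
      have h6 : (Module.finrank ℚ F : ℝ) / 2 * ((2 : ℕ) : ℝ) = (Module.finrank ℚ F : ℝ) := by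
        push_cast
        ring
      rw [h6, Real.rpow_natCast, ← pow_mul, mul_comm (Module.finrank ℚ F) 2, pow_mul]
      norm_num
      exact_mod_cast hS
    exact (pow_le_pow_iff_left₀ (by positivity) (by positivity) two_ne_zero).1 h5
  have h5 : A.ncard ≤ n ^ n * S.ncard := by
    rw [Set.ncard_eq_toFinset_card _ hfin]
    exact h1.trans (Nat.mul_le_mul_left _ (h2.trans h3))
  calc (A.ncard : ℝ) ≤ ((n ^ n * S.ncard : ℕ) : ℝ) := by exact_mod_cast h5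
    _ = ((n ^ n : ℕ) : ℝ) * (S.ncard : ℝ) := by push_cast; ring
    _ ≤ ((n ^ n : ℕ) : ℝ) *
        (2 ^ Module.finrank ℚ F * (q : ℝ) ^ ((Module.finrank ℚ F : ℝ) / 2)) :=
        mul_le_mul_of_nonneg_left h4 (by positivity)
    _ = _ := by ring

end Pool.Agent.H50.CA
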